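import Pool.Agent.Helper12_UNF.Stmts

set_option autoImplicit false

/-!
# Squad UNF, module DEO: Deodhar's lemma
-/

namespace Unf.H75

open Art Pool.Agent.Helper38_Coxeter Unf

variable {S W : Type} [Group W] {M : CoxeterMatrix S} {cs : CoxeterSystem M W}

lemma rho_cancel (d : W) (v : S →₀ ℝ) : rho cs d⁻¹ (rho cs d v) = v := by
  rw [← LinearEquiv.mul_apply, ← map_mul, inv_mul_cancel, map_one, LinearEquiv.coe_one, id_eq]

lemma rho_cancel' (d : W) (v : S →₀ ℝ) : rho cs d (rho cs d⁻¹ v) = v := by
  rw [← LinearEquiv.mul_apply, ← map_mul, mul_inv_cancel, map_one, LinearEquiv.coe_one, id_eq]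

/-- Expansion of the value at a vector in the simple roots. -/
lemma lin_apply (T : (S →₀ ℝ) ≃ₗ[ℝ] (S →₀ ℝ)) (v : S →₀ ℝ) (b : S) :
    T v b = v.sum fun t c => c * (T (sr t)) b := by
  classical
  conv_lhs => rw [← Finsupp.sum_single v]
  rw [Finsupp.sum, map_sum, Finsupp.finsetSum_apply, Finsupp.sum]
  apply Finset.sum_congr rfl
  intro t _
  have h : Finsupp.single t (v t) = (v t) • (sr t : S →₀ ℝ) := by
    rw [sr, Finsupp.smul_single, smul_eq_mul, mul_one]
  rw [h, map_smul, Finsupp.smul_apply, smul_eq_mul]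

/-- The image of a nonnegative vector supported in `D` is nonnegative and dominates each term. -/
lemma dom {D : Set S} {T : (S →₀ ℝ) ≃ₗ[ℝ] (S →₀ ℝ)} (hT : ∀ t ∈ D, NN (T (sr t)))
    {v : S →₀ ℝ} (hv : NN v) (hD : SuppIn D v) (t b : S) :
    v t * (T (sr t)) b ≤ T v b := by
  classical
  have key : ∀ u, 0 ≤ v u * (T (sr u)) b := by
    intro u
    by_cases hu : u ∈ D
    · exact mul_nonneg (hv u) (hT u hu b)
    · rw [hD u hu, zero_mul]
  rw [lin_apply T v b, Finsupp.sum]
  by_cases hts : t ∈ v.support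
  · exact Finset.single_le_sum (f := fun u => v u * (T (sr u)) b) (fun u _ => key u) hts
  · rw [Finsupp.notMem_support_iff.mp hts, zero_mul]
    exact Finset.sum_nonneg (fun u _ => key u)

lemma dom0 {D : Set S} {T : (S →₀ ℝ) ≃ₗ[ℝ] (S →₀ ℝ)} (hT : ∀ t ∈ D, NN (T (sr t)))
    {v : S →₀ ℝ} (hv : NN v) (hD : SuppIn D v) : NN (T v) := by
  classical
  intro b
  rw [lin_apply T v b, Finsupp.sum]
  apply Finset.sum_nonneg
  intro u _
  by_cases hu : u ∈ D
  · exact mul_nonneg (hv u) (hT u hu b)
  · rw [hD u hu, zero_mul]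

/-- A positive root supported at one simple root is this simple root. -/
lemma eq_sr {γ : S →₀ ℝ} (h : IsRoot cs γ) (hγ : NN γ) (j : S)
    (hcoord : ∀ b, b ≠ j → γ b = 0) : γ = sr j := by
  classical
  have hγj : γ = γ j • sr j := by
    ext b
    rw [Finsupp.smul_apply, sr, Finsupp.single_apply]
    by_cases hb : b = j
    · subst hb; simp
    · rw [if_neg (Ne.symm hb), hcoord b hb]; simp
  have hb := h.bil_self
  rw [hγj] at hb
  simp only [map_smul, LinearMap.smul_apply, bil_sr_sr, gram_self, smul_eq_mul, mul_one] at hb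
  have h4 : γ j = 1 := by
    have h5 := hγ j
    nlinarith
  rw [hγj, h4, one_smul]

/-- Deodhar's lemma. -/
theorem deo : DeoStmt := by
  classical
  intro S M D d s hmin
  set cs := M.toCoxeterSystem with hcs
  have hroot : IsRoot cs (rho cs d (sr s)) := (isRoot_sr s).rho d
  by_cases hsup : SuppIn D (rho cs d (sr s))
  · left
    have hpos : NN (rho cs d (sr s)) := by
      rcases hroot.nn_or with h | h
      · exact h
      · exfalso
        have hD : SuppIn D (-(rho cs d (sr s))) := by
          intro u hu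
          rw [Finsupp.neg_apply, hsup u hu, neg_zero]
        have h1 := dom0 (T := rho cs d⁻¹) hmin h hD
        rw [map_neg, rho_cancel] at h1
        exact (isRoot_sr (cs := cs) s).not_both (NN_sr s) h1
    obtain ⟨t, ht⟩ : ∃ t, 0 < (rho cs d (sr s)) t := by
      by_contra hcon
      push Not at hcon
      apply hroot.ne_zero
      ext u
      have h1 := hpos u
      have h2 := hcon u
      simp only [Finsupp.coe_zero, Pi.zero_apply]
      linarith
    have htD : t ∈ D := by
      by_contra hn
      rw [hsup t hn] at ht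
      exact lt_irrefl _ ht
    have hd1 : IsRoot cs (rho cs d⁻¹ (sr t)) := (isRoot_sr t).rho d⁻¹
    have heq : rho cs d⁻¹ (sr t) = sr s := by
      apply eq_sr hd1 (hmin t htD)
      intro b hb
      have h1 := dom (T := rho cs d⁻¹) hmin hpos hsup t b
      have e0 : (sr s : S →₀ ℝ) b = 0 := by
        rw [sr, Finsupp.single_apply, if_neg (Ne.symm hb)]
      rw [rho_cancel, e0] at h1
      have h2 : 0 ≤ (rho cs d⁻¹ (sr t)) b := hmin t htD b
      rcases h2.eq_or_lt with h3 | h3
      · exact h3.symm
      · exact absurd h1 (not_le.mpr (mul_pos ht h3))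
    have heq' : rho cs d (sr s) = sr t := by
      rw [← heq, rho_cancel']
    refine ⟨t, htD, heq', ?_⟩
    have h1 : RefOf cs (d * cs.simple s * d⁻¹) (sr t) := by
      rw [← heq']
      exact (refOf_simple s).conj d
    have h2 := h1.unique (refOf_simple t)
    show d * cs.simple s = cs.simple t * d
    rw [← h2]
    group
  · right
    refine ⟨hsup, ?_⟩
    intro t htD
    have hd1 : IsRoot cs (rho cs d⁻¹ (sr t)) := (isRoot_sr t).rho d⁻¹
    have hne : rho cs d⁻¹ (sr t) ≠ sr s := by
      intro h
      apply hsup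
      rw [← h, rho_cancel']
      intro u hu
      have : t ≠ u := fun e => hu (e ▸ htD)
      rw [sr, Finsupp.single_apply, if_neg this]
    have h3 := NN_sig hd1 (hmin t htD) s hne
    have h4 : rho cs (d * M.simple s)⁻¹ (sr t) = sig M s (rho cs d⁻¹ (sr t)) := by
      have : (d * M.simple s)⁻¹ = cs.simple s * d⁻¹ := by
        have e : (M.simple s)⁻¹ = cs.simple s := cs.inv_simple s
        rw [mul_inv_rev, e]
      rw [this, map_mul, LinearEquiv.mul_apply, rho_simple]
    rw [← hcs, h4]
    exact h3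

end Unf.H75
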